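import Pool.Agent.Y8.Stm4
import Pool.Agent.Y458.NS.CR

/-!
The criterion for singular points near the path (job 271 of helper8, by helper660); the proof of
`Pool.Agent.Y458.NS.t_CRIT` with a point near the path.
-/

open MeasureTheory Set Metric
open scoped ContDiff

namespace Pool.Agent.Y660.NS

open H459R3.NS W221.NS Pool.Agent.Y8 Pool.Agent.Y458.NS

theorem t_CRIT2 (hF : S_WFRAME) (hS : S_WSL) (hL : S_WLOC) : S_CRIT2 := by
  obtain ⟨C₂, hC₂, hsl⟩ := hS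
  obtain ⟨ε₁, C₁, hε₁, hC₁, hloc⟩ := hL
  refine ⟨ε₁ / C₂, by positivity, ?_⟩
  intro T E D G u p h m s hm hs0 hsT X Y B C hX t₀ ht₀ x₀ hx₀ hsing
  by_contra hlt
  rw [not_le] at hlt
  have hr : 0 < rr m := by unfold rr; positivity
  obtain ⟨r, hrd⟩ : ∃ r, r = rr m := ⟨_, rfl⟩
  rw [← hrd] at hr hs0 hX ht₀ hx₀ hlt
  have hr2 : 0 < r ^ 2 := by positivity
  obtain ⟨H, hH⟩ : ∃ H : Set ℝ, H = {t | t ∈ Ioo (-1 : ℝ) 0 ∧ s + r ^ 2 * t ∈ G} := ⟨_, rfl⟩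
  have hwl : WLoc H (frv r s X u) (frq r s X p) := by
    rw [hH]
    exact hF T E D G u p h r s hr hs0 hsT X Y B C hX
  have hXc : ContinuousOn X G := hX.sm.continuousOn
  have hT0 : ∀ t ∈ Ioo (-1 : ℝ) 0, s + r ^ 2 * t ∈ Ioo 0 T := by
    intro t ht
    constructor
    · nlinarith [ht.1]
    · nlinarith [ht.2]
  obtain ⟨Γ, hΓ⟩ : ∃ Γ : ℝ → ℝ, Γ = fun t => C₂ * FF m (u (s + r ^ 2 * t)) (X (s + r ^ 2 * t)) :=
    ⟨_, rfl⟩
  -- integrability
  obtain ⟨F, hFd⟩ : ∃ F : ℝ → ℝ, F = G.indicator (fun τ => FF m (u τ) (X τ)) := ⟨_, rfl⟩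
  have hFi : Integrable F := by
    rw [hFd]
    exact (integrable_indicator_iff h.openG.measurableSet).2 (FF_mov_int h hXc m)
  have hFi2 : Integrable (fun t => C₂ * F (s + r ^ 2 * t)) :=
    ((hFi.comp_add_left s).comp_mul_left' hr2.ne').const_mul C₂
  have haeH : ∀ᵐ t ∂(volume.restrict (Ioo (-1 : ℝ) 0)), t ∈ H := by
    rw [ae_restrict_iff' measurableSet_Ioo]
    have h1 : ∀ᵐ t : ℝ, t ∉ Ioo (-1 : ℝ) 0 \ H := measure_eq_zero_iff_ae_notMem.1 hwl.fullH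
    filter_upwards [h1] with t ht htJ
    by_contra hc
    exact ht ⟨htJ, hc⟩
  have hΓi : IntegrableOn Γ (Ioo (-1) 0) := by
    refine (hFi2.integrableOn (s := Ioo (-1 : ℝ) 0)).congr ?_
    filter_upwards [haeH] with t ht
    rw [hH] at ht
    rw [hFd, hΓ, indicator_of_mem ht.2]
  have hΓe : ∫ t in Ioo (-1 : ℝ) 0, Γ t ≤ ε₁ := by
    rw [hΓ, integral_const_mul]
    rw [lt_div_iff₀ hC₂, mul_comm] at hlt
    exact hlt.le
  have hsl' : ∀ t ∈ H, ∃ P, Slice (frv r s X u t) (frq r s X p t) P (Γ t) := by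
    intro t ht
    rw [hH] at ht
    obtain ⟨P, hP⟩ := hsl T E D G u p h m s hm X hX.sm (fun t ht => by
      rw [← hrd, ← hX.ev t ht]
      exact hX.hd t (h.subG ht)) t ht.1 (by rw [← hrd]; exact ht.2)
    refine ⟨P, ?_⟩
    rw [hΓ, hrd]
    exact hP
  have hbd := hloc H (frv r s X u) (frq r s X p) Γ ⟨hwl, hsl', hΓi, hΓe⟩
  -- the velocity is bounded
  have hvel : ∀ τ ∈ G, s - r ^ 2 / 16 < τ → τ < s → ∀ z ∈ ball (0 : V) (1 / 4), ∀ i,
      |u τ (X τ + r • z) i| ≤ C₁ / r + B := by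
    intro τ hτ h1 h2 z hz i
    obtain ⟨t, ht⟩ : ∃ t, t = (τ - s) / r ^ 2 := ⟨_, rfl⟩
    have htτ : s + r ^ 2 * t = τ := by
      rw [ht]
      field_simp
      ring
    have ht1 : -1 / 16 < t := by
      rw [ht, lt_div_iff₀ hr2]
      linarith
    have ht2 : t < 0 := by
      rw [ht]
      exact div_neg_of_neg_of_pos (by linarith) hr2
    have htH : t ∈ H := by
      rw [hH]
      exact ⟨⟨by linarith, ht2⟩, by rw [htτ]; exact hτ⟩
    have h3 := hbd t htH ht1 z hz i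
    have h4 : frv r s X u t z i = r * (u τ (X τ + r • z) i - deriv (fun τ => X τ i) τ) := by
      unfold frv
      rw [htτ]
    have h5 : deriv (fun τ => X τ i) τ = Y τ i :=
      (hasDerivAt_pi.1 (hX.hd τ (h.subG hτ)) i).deriv
    rw [h4, h5, abs_mul, abs_of_pos hr] at h3
    have h6 : |u τ (X τ + r • z) i - Y τ i| ≤ C₁ / r := by
      rw [le_div_iff₀ hr, mul_comm]
      exact h3
    have h7 : |Y τ i| ≤ B := (norm_le_pi_norm (Y τ) i).trans (hX.bd τ (h.subG hτ))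
    have h8 : u τ (X τ + r • z) i = (u τ (X τ + r • z) i - Y τ i) + Y τ i := by ring
    rw [h8]
    exact (abs_add_le _ _).trans (add_le_add h6 h7)
  -- the contradiction
  have ht₀T : t₀ ∈ Ioo 0 T := ⟨by nlinarith [ht₀.1], ht₀.2.trans hsT⟩
  have hXc0 : ContinuousAt X t₀ := (hX.hd t₀ ht₀T).continuousAt
  obtain ⟨d, hd⟩ : ∃ d : ℝ, d = (r / 4 - dist x₀ (X t₀)) / 2 := ⟨_, rfl⟩
  have hd0 : 0 < d := by
    rw [hd]
    have := mem_ball.1 hx₀
    linarith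
  obtain ⟨δ₁, hδ₁, hXδ⟩ := Metric.continuousAt_iff.1 hXc0 d hd0
  have hB0 : 0 ≤ B := (norm_nonneg _).trans (hX.bd t₀ ht₀T)
  obtain ⟨δ, hδ⟩ : ∃ δ, δ = min (min δ₁ d) (min (t₀ - (s - r ^ 2 / 16)) (s - t₀)) :=
    ⟨_, rfl⟩
  have hδ0 : 0 < δ := by
    rw [hδ]
    refine lt_min (lt_min hδ₁ hd0) (lt_min ?_ ?_)
    · linarith [ht₀.1]
    · linarith [ht₀.2]
  have d1 : δ ≤ δ₁ := by rw [hδ]; exact (min_le_left _ _).trans (min_le_left _ _)
  have d2 : δ ≤ d := by rw [hδ]; exact (min_le_left _ _).trans (min_le_right _ _)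
  have d3 : δ ≤ t₀ - (s - r ^ 2 / 16) := by
    rw [hδ]; exact (min_le_right _ _).trans (min_le_left _ _)
  have d4 : δ ≤ s - t₀ := by rw [hδ]; exact (min_le_right _ _).trans (min_le_right _ _)
  obtain ⟨τ, hτ, hτδ, y, hy, hyB⟩ := hsing δ hδ0 (C₁ / r + B)
  rw [abs_lt] at hτδ
  have h1 : s - r ^ 2 / 16 < τ := by linarith
  have h2 : τ < s := by linarith
  have h3 : dist (X τ) (X t₀) < d := by
    apply hXδ
    rw [Real.dist_eq, abs_lt]
    constructor <;> linarith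
  obtain ⟨z, hz⟩ : ∃ z : V, z = r⁻¹ • (y - X τ) := ⟨_, rfl⟩
  have hzy : X τ + r • z = y := by
    rw [hz, smul_smul, mul_inv_cancel₀ hr.ne', one_smul]
    abel
  have hzb : z ∈ ball (0 : V) (1 / 4) := by
    rw [mem_ball, dist_zero_right, hz, norm_smul, Real.norm_eq_abs, abs_of_pos (inv_pos.2 hr),
      inv_mul_lt_iff₀ hr]
    have h4 : ‖y - X τ‖ ≤ dist y (X t₀) + dist (X τ) (X t₀) := by
      rw [← dist_eq_norm]
      exact dist_triangle_right y (X τ) (X t₀)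
    have h5 := mem_ball.1 hy
    have h6 := dist_triangle y x₀ (X t₀)
    linarith
  have h6 : ‖u τ y‖ ≤ C₁ / r + B := by
    rw [pi_norm_le_iff_of_nonneg (by positivity)]
    intro i
    have h7 := hvel τ hτ h1 h2 z hzb i
    rw [hzy] at h7
    exact h7
  linarith

end Pool.Agent.Y660.NS
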